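import Pool.Agent.J4H23.SB.Nh

/-!
# Project NH of helper23: (IDN), the identity of the counts (helper42)
-/

set_option autoImplicit false

namespace Pool.Agent.J4H42.NH

open Finset Pool.Agent.J4H63.DB Pool.Agent.J4H23.SB

/-- the count is multiplicative if there are no edges between the blocks -/
theorem cnt_prod (E : List (ℕ × ℕ)) (A A1 B B1 : Finset ℕ) (hA : Disjoint A A1) (hB : Disjoint B B1)
    (h1 : ∀ u ∈ A, ∀ v ∈ B1, (u, v) ∉ E) (h2 : ∀ u ∈ A1, ∀ v ∈ B, (u, v) ∉ E) :
    cnt E (A ∪ A1) (B ∪ B1) = cnt E A B * cnt E A1 B1 := by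
  unfold cnt
  rw [← Finset.card_product]
  refine Finset.card_bij' (fun p _ => ((p.1 ∩ A, p.2 ∩ B), (p.1 ∩ A1, p.2 ∩ B1)))
    (fun q _ => (q.1.1 ∪ q.2.1, q.1.2 ∪ q.2.2)) ?_ ?_ ?_ ?_
  · intro p hp
    rw [mem_indep] at hp
    rw [Finset.mem_product, mem_indep, mem_indep]
    refine ⟨⟨Finset.inter_subset_right, Finset.inter_subset_right, ?_⟩, Finset.inter_subset_right, Finset.inter_subset_right, ?_⟩
    · intro u hu v hv
      exact hp.2.2 u (Finset.mem_inter.1 hu).1 v (Finset.mem_inter.1 hv).1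
    · intro u hu v hv
      exact hp.2.2 u (Finset.mem_inter.1 hu).1 v (Finset.mem_inter.1 hv).1
  · intro q hq
    rw [Finset.mem_product, mem_indep, mem_indep] at hq
    obtain ⟨⟨a1, a2, a3⟩, b1, b2, b3⟩ := hq
    rw [mem_indep]
    refine ⟨Finset.union_subset_union a1 b1, Finset.union_subset_union a2 b2, ?_⟩
    intro u hu v hv
    rcases Finset.mem_union.1 hu with hu | hu <;> rcases Finset.mem_union.1 hv with hv | hv
    · exact a3 u hu v hv
    · exact h1 u (a1 hu) v (b2 hv)
    · exact h2 u (b1 hu) v (a2 hv)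
    · exact b3 u hu v hv
  · intro p hp
    rw [mem_indep] at hp
    refine Prod.ext ?_ ?_
    · change p.1 ∩ A ∪ p.1 ∩ A1 = p.1
      rw [← Finset.inter_union_distrib_left, Finset.inter_eq_left]
      exact hp.1
    · change p.2 ∩ B ∪ p.2 ∩ B1 = p.2
      rw [← Finset.inter_union_distrib_left, Finset.inter_eq_left]
      exact hp.2.1
  · intro q hq
    rw [Finset.mem_product, mem_indep, mem_indep] at hq
    obtain ⟨⟨a1, a2, a3⟩, b1, b2, b3⟩ := hq
    have key : ∀ S S1 X X1 : Finset ℕ, Disjoint S S1 → X ⊆ S → X1 ⊆ S1 → (X ∪ X1) ∩ S = X ∧ (X ∪ X1) ∩ S1 = X1 := by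
      intro S S1 X X1 hd hX hX1
      constructor
      · rw [Finset.union_inter_distrib_right, Finset.inter_eq_left.2 hX,
          (Finset.disjoint_iff_inter_eq_empty.1 (hd.symm.mono_left hX1)), Finset.union_empty]
      · rw [Finset.union_inter_distrib_right, Finset.inter_eq_left.2 hX1,
          (Finset.disjoint_iff_inter_eq_empty.1 (hd.mono_left hX)), Finset.empty_union]
    obtain ⟨k1, k2⟩ := key A A1 q.1.1 q.2.1 hA a1 b1
    obtain ⟨k3, k4⟩ := key B B1 q.1.2 q.2.2 hB a2 b2
    refine Prod.ext (Prod.ext k1 k3) (Prod.ext k2 k4)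

/-- relabelling the two sides -/
theorem cnt_relabel (E E' : List (ℕ × ℕ)) (f g : ℕ → ℕ) (A B : Finset ℕ) (hf : Set.InjOn f A) (hg : Set.InjOn g B)
    (h : ∀ u ∈ A, ∀ v ∈ B, (u, v) ∈ E ↔ (f u, g v) ∈ E') : cnt E A B = cnt E' (A.image f) (B.image g) := by
  have hinj : ∀ (f : ℕ → ℕ) (A S S' : Finset ℕ), Set.InjOn f A → S ⊆ A → S' ⊆ A → S.image f = S'.image f → S ⊆ S' := by
    intro f A S S' hf hS hS' he x hx
    have hx' : f x ∈ S'.image f := he ▸ Finset.mem_image_of_mem f hx
    obtain ⟨y, hy, hxy⟩ := Finset.mem_image.1 hx'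
    have : y = x := hf (hS' hy) (hS hx) hxy
    exact this ▸ hy
  refine Finset.card_bij (fun p _ => (p.1.image f, p.2.image g)) ?_ ?_ ?_
  · intro p hp
    rw [mem_indep] at hp ⊢
    refine ⟨Finset.image_subset_image hp.1, Finset.image_subset_image hp.2.1, ?_⟩
    intro u hu v hv
    obtain ⟨u', hu', rfl⟩ := Finset.mem_image.1 hu
    obtain ⟨v', hv', rfl⟩ := Finset.mem_image.1 hv
    rw [← h u' (hp.1 hu') v' (hp.2.1 hv')]
    exact hp.2.2 u' hu' v' hv'
  · intro p hp q hq hpq
    rw [mem_indep] at hp hq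
    have e1 : p.1.image f = q.1.image f := congrArg Prod.fst hpq
    have e2 : p.2.image g = q.2.image g := congrArg Prod.snd hpq
    refine Prod.ext ?_ ?_
    · exact Finset.Subset.antisymm (hinj f A _ _ hf hp.1 hq.1 e1) (hinj f A _ _ hf hq.1 hp.1 e1.symm)
    · exact Finset.Subset.antisymm (hinj g B _ _ hg hp.2.1 hq.2.1 e2) (hinj g B _ _ hg hq.2.1 hp.2.1 e2.symm)
  · intro q hq
    rw [mem_indep] at hq
    obtain ⟨h1, h2, h3⟩ := hq
    obtain ⟨p1, hp1, hp1'⟩ := Finset.subset_image_iff.1 h1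
    obtain ⟨p2, hp2, hp2'⟩ := Finset.subset_image_iff.1 h2
    refine ⟨(p1, p2), ?_, Prod.ext hp1' hp2'⟩
    rw [mem_indep]
    refine ⟨hp1, hp2, fun u hu v hv => ?_⟩
    rw [h u (hp1 hu) v (hp2 hv)]
    refine h3 (f u) ?_ (g v) ?_
    · rw [← hp1']; exact Finset.mem_image_of_mem f hu
    · rw [← hp2']; exact Finset.mem_image_of_mem g hv

theorem mem_noisy {m J : ℕ} {H : List (ℕ × ℕ)} {r : List Bool} {u v : ℕ} :
    (u, v) ∈ (noisy m H J r).2.2 ↔ (u < m ∧ v < m) ∧ ((u, v) ∈ H ∨ nz m J r u v = true) := by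
  unfold noisy
  simp only [List.mem_filter, mem_prodL, List.mem_range, Bool.or_eq_true, decide_eq_true_eq]

theorem mem_emb {G : BGr} {u v : ℕ} : (u, v) ∈ emb G ↔
    (u < G.1.length ∧ v < G.2.1.length) ∧ (G.1.getD u 0, G.2.1.getD v 0) ∈ G.2.2 := by
  unfold emb
  simp only [List.mem_filter, mem_prodL, List.mem_range, decide_eq_true_eq]

theorem image_getD (l : List ℕ) : (Finset.range l.length).image (fun i => l.getD i 0) = l.toFinset := by
  ext x
  simp only [Finset.mem_image, Finset.mem_range, List.mem_toFinset]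
  constructor
  · rintro ⟨i, hi, rfl⟩
    rw [List.getD_eq_getElem _ _ hi]
    exact List.getElem_mem hi
  · intro hx
    obtain ⟨i, hi, h⟩ := List.getElem_of_mem hx
    exact ⟨i, hi, by rw [List.getD_eq_getElem _ _ hi, h]⟩

theorem inj_getD {l : List ℕ} (hl : l.Nodup) : Set.InjOn (fun i => l.getD i 0) (Finset.range l.length : Finset ℕ) := by
  intro i hi j hj h
  simp only [Finset.coe_range, Set.mem_Iio] at hi hj
  simp only [] at h
  rw [List.getD_eq_getElem _ _ hi, List.getD_eq_getElem _ _ hj] at h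
  exact (List.Nodup.getElem_inj_iff hl).1 h

theorem t_IDN : S_IDN := by
  intro G m J r hG hm hnz
  obtain ⟨hn1, hn2, -⟩ := hG
  set a := G.1.length with ha
  set b := G.2.1.length with hb
  have hab : nV G = a + b := rfl
  have ham : a ≤ m := by omega
  have hbm : b ≤ m := by omega
  have hsplit : ∀ c : ℕ, c ≤ m → (List.range m).toFinset = Finset.range c ∪ (Finset.range m \ Finset.range c) := by
    intro c hc
    rw [Finset.union_sdiff_of_subset (Finset.range_subset_range.2 hc)]
    ext x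
    simp
  have hmemB : ∀ c x : ℕ, x ∈ Finset.range m \ Finset.range c → x < m ∧ ¬ x < c := by
    intro c x hx
    rw [Finset.mem_sdiff, Finset.mem_range, Finset.mem_range] at hx
    exact hx
  -- the general formula
  have hgen : ∀ H : List (ℕ × ℕ), (∀ u v : ℕ, (u, v) ∈ H → u < a ∧ v < b) →
      numIS (noisy m H J r) = cnt (noisy m H J r).2.2 (Finset.range a) (Finset.range b) *
        cnt (noisy m [] J r).2.2 (Finset.range m \ Finset.range a) (Finset.range m \ Finset.range b) := by
    intro H hH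
    have e1 : numIS (noisy m H J r) = cnt (noisy m H J r).2.2 (List.range m).toFinset (List.range m).toFinset := rfl
    rw [e1]
    conv_lhs => rw [hsplit a ham]
    rw [show cnt (noisy m H J r).2.2 (Finset.range a ∪ (Finset.range m \ Finset.range a))
      (Finset.range a ∪ (Finset.range m \ Finset.range a)) = cnt (noisy m H J r).2.2 (Finset.range a ∪ (Finset.range m \ Finset.range a))
      (Finset.range b ∪ (Finset.range m \ Finset.range b)) by rw [← hsplit a ham, ← hsplit b hbm]]
    rw [cnt_prod _ _ _ _ _ Finset.disjoint_sdiff Finset.disjoint_sdiff]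
    · congr 1
      apply cnt_congr
      intro u hu v hv
      obtain ⟨hu1, hu2⟩ := hmemB a u hu
      rw [mem_noisy, mem_noisy]
      constructor
      · rintro ⟨h1, h2 | h2⟩
        · exact absurd (hH u v h2).1 hu2
        · exact ⟨h1, Or.inr h2⟩
      · rintro ⟨h1, h2 | h2⟩
        · exact absurd h2 (by simp)
        · exact ⟨h1, Or.inr h2⟩
    · intro u hu v hv hmem
      rw [Finset.mem_range] at hu
      obtain ⟨hv1, hv2⟩ := hmemB b v hv
      rw [mem_noisy] at hmem
      rcases hmem.2 with h | h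
      · exact hv2 (hH u v h).2
      · rw [hnz u v hmem.1.1 hmem.1.2 (Or.inl hu)] at h
        exact absurd h (by simp)
    · intro u hu v hv hmem
      rw [Finset.mem_range] at hv
      obtain ⟨hu1, hu2⟩ := hmemB a u hu
      rw [mem_noisy] at hmem
      rcases hmem.2 with h | h
      · exact hu2 (hH u v h).1
      · rw [hnz u v hmem.1.1 hmem.1.2 (Or.inr hv)] at h
        exact absurd h (by simp)
  rw [hgen (emb G) (fun u v h => (mem_emb.1 h).1), hgen [] (fun u v h => absurd h (by simp))]
  have h1 : cnt (noisy m (emb G) J r).2.2 (Finset.range a) (Finset.range b) = numIS G := by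
    have e : numIS G = cnt G.2.2 G.1.toFinset G.2.1.toFinset := rfl
    rw [e, ← image_getD G.1, ← image_getD G.2.1]
    apply cnt_relabel
    · exact inj_getD hn1
    · exact inj_getD hn2
    · intro u hu v hv
      rw [Finset.mem_range] at hu hv
      rw [mem_noisy, mem_emb]
      constructor
      · rintro ⟨-, h | h⟩
        · exact h.2
        · rw [hnz u v (by omega) (by omega) (Or.inl hu)] at h
          exact absurd h (by simp)
      · intro h
        exact ⟨⟨by omega, by omega⟩, Or.inl ⟨⟨hu, hv⟩, h⟩⟩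
  have h2 : cnt (noisy m [] J r).2.2 (Finset.range a) (Finset.range b) = 2 ^ (a + b) := by
    rw [cnt_of_no_edge]
    · rw [Finset.card_range, Finset.card_range]
    · intro u hu v hv hmem
      rw [Finset.mem_range] at hu hv
      rw [mem_noisy] at hmem
      rcases hmem.2 with h | h
      · exact absurd h (by simp)
      · rw [hnz u v hmem.1.1 hmem.1.2 (Or.inl hu)] at h
        exact absurd h (by simp)
  rw [h1, h2, hab]
  ring

end Pool.Agent.J4H42.NH
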